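import Mathlib
import Pool.Agent.U398.MV.Stm

/-!
# Cosine sums over primes (package PR of project MV)
-/

set_option autoImplicit false

namespace Pool.Agent.U780.MV.PR

open Filter Topology Complex

/-- `(s - 1) ζ(s)` is bounded away from zero and infinity on a compact set -/
theorem zeta_bound : ∃ C : ℝ, ∀ s : ℂ, 1 < s.re → s.re ≤ 2 → |s.im| ≤ 1 →
    |Real.log ‖riemannZeta s‖ + Real.log ‖s - 1‖| ≤ C := by
  set G : ℂ → ℂ := Function.update (fun s => (s - 1) * riemannZeta s) 1 1 with hG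
  have hc : Continuous G := by
    rw [continuous_iff_continuousAt]
    intro s
    by_cases hs : s = 1
    · subst hs
      exact continuousAt_update_same.2 riemannZeta_residue_one
    · rw [hG, continuousAt_update_of_ne hs]
      exact (continuousAt_id.sub continuousAt_const).mul
        (differentiableAt_riemannZeta hs).continuousAt
  have hne : ∀ s : ℂ, 1 ≤ s.re → G s ≠ 0 := by
    intro s hs
    by_cases h1 : s = 1
    · subst h1
      rw [hG, Function.update_self]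
      exact one_ne_zero
    · rw [hG, Function.update_of_ne h1]
      exact mul_ne_zero (sub_ne_zero.2 h1) (riemannZeta_ne_zero_of_one_le_re hs)
  set K : Set ℂ := Set.Icc (1 : ℝ) 2 ×ℂ Set.Icc (-1 : ℝ) 1 with hKdef
  have hK : IsCompact K := isCompact_Icc.reProdIm isCompact_Icc
  have hcont : ContinuousOn (fun s => Real.log ‖G s‖) K := by
    refine ContinuousOn.log hc.norm.continuousOn (fun s hs => ?_)
    exact norm_ne_zero_iff.2 (hne s hs.1.1)
  obtain ⟨C, hC⟩ := hK.exists_bound_of_continuousOn hcont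
  refine ⟨C, fun s h1 h2 h3 => ?_⟩
  have hs : s ∈ K := ⟨⟨h1.le, h2⟩, abs_le.1 h3⟩
  have h4 := hC s hs
  have h5 : s ≠ 1 := by
    rintro rfl
    simp at h1
  rw [hG, Function.update_of_ne h5, norm_mul, Real.log_mul
    (norm_ne_zero_iff.2 (sub_ne_zero.2 h5))
    (norm_ne_zero_iff.2 (riemannZeta_ne_zero_of_one_le_re h1.le)), Real.norm_eq_abs] at h4
  rw [add_comm]
  exact h4

theorem norm_z (p : Nat.Primes) (s : ℂ) :
    ‖((p : ℕ) : ℂ) ^ (-s)‖ = ((p : ℕ) : ℝ) ^ (-s.re) := by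
  rw [Complex.norm_natCast_cpow_of_pos p.2.pos, Complex.neg_re]

theorem summable_primes (σ : ℝ) (hσ : 1 < σ) :
    Summable (fun p : Nat.Primes => ((p : ℕ) : ℝ) ^ (-σ)) :=
  (Real.summable_nat_rpow.2 (by linarith)).comp_injective Subtype.val_injective

theorem log_zeta (s : ℂ) (hs : 1 < s.re) :
    |Real.log ‖riemannZeta s‖ - (∑' p : Nat.Primes, ((p : ℕ) : ℂ) ^ (-s)).re| ≤
      ∑' p : Nat.Primes, ((p : ℕ) : ℝ) ^ (-(2 : ℝ)) := by
  set z : Nat.Primes → ℂ := fun p => ((p : ℕ) : ℂ) ^ (-s) with hz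
  have hz1 : ∀ p, ‖z p‖ ≤ ((p : ℕ) : ℝ) ^ (-(1 : ℝ)) := by
    intro p
    rw [hz]
    simp only
    rw [norm_z]
    refine Real.rpow_le_rpow_of_exponent_le ?_ (by linarith)
    exact_mod_cast p.2.one_lt.le
  have hp2 : ∀ p : Nat.Primes, (2 : ℝ) ≤ ((p : ℕ) : ℝ) := fun p => by exact_mod_cast p.2.two_le
  have hz2 : ∀ p, ‖z p‖ ≤ 1 / 2 := by
    intro p
    refine (hz1 p).trans ?_
    rw [Real.rpow_neg (by linarith [hp2 p]), Real.rpow_one, ← one_div]
    exact one_div_le_one_div_of_le (by norm_num) (hp2 p)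
  have hz3 : ∀ p, ‖-Complex.log (1 - z p) - z p‖ ≤ ((p : ℕ) : ℝ) ^ (-(2 : ℝ)) := by
    intro p
    have h1 := Complex.norm_log_one_add_sub_self_le (z := -z p)
      (by rw [norm_neg]; linarith [hz2 p])
    rw [norm_neg] at h1
    have h2 : ‖-Complex.log (1 - z p) - z p‖ = ‖Complex.log (1 + -z p) - -z p‖ := by
      rw [← norm_neg]
      congr 1
      rw [← sub_eq_add_neg]
      ring
    rw [h2]
    refine h1.trans ?_
    have h3 : (1 - ‖z p‖)⁻¹ ≤ 2 := by
      rw [inv_le_comm₀ (by linarith [hz2 p]) (by norm_num)]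
      linarith [hz2 p]
    have h4 : ‖z p‖ ^ 2 * (1 - ‖z p‖)⁻¹ / 2 ≤ ‖z p‖ ^ 2 := by
      have := mul_le_mul_of_nonneg_left h3 (sq_nonneg ‖z p‖)
      linarith
    refine h4.trans ?_
    have h5 : ((p : ℕ) : ℝ) ^ (-(2 : ℝ)) = (((p : ℕ) : ℝ) ^ (-(1 : ℝ))) ^ 2 := by
      rw [← Real.rpow_natCast, ← Real.rpow_mul (by linarith [hp2 p])]
      norm_num
    rw [h5]
    exact pow_le_pow_left₀ (norm_nonneg _) (hz1 p) 2
  have hsum2 := summable_primes 2 (by norm_num)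
  have hsz : Summable z := by
    refine Summable.of_norm ?_
    have := summable_primes s.re hs
    refine this.congr (fun p => ?_)
    rw [hz]
    exact (norm_z p s).symm
  have hse : Summable (fun p => -Complex.log (1 - z p) - z p) :=
    Summable.of_norm_bounded hsum2 hz3
  have hsl : Summable (fun p => -Complex.log (1 - z p)) := by
    have := hse.add hsz
    refine this.congr (fun p => ?_)
    ring
  have h6 : Real.log ‖riemannZeta s‖ = (∑' p, -Complex.log (1 - z p)).re := by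
    rw [← riemannZeta_eulerProduct_exp_log hs, Complex.norm_exp, Real.log_exp]
  rw [h6, ← Complex.sub_re, ← hsl.tsum_sub hsz]
  refine (Complex.abs_re_le_norm _).trans ?_
  exact tsum_of_norm_bounded hsum2.hasSum hz3

/-- the prime zeta function near the line `Re s = 1` -/
theorem re_sum : ∃ C : ℝ, 0 ≤ C ∧ ∀ s : ℂ, 1 < s.re → s.re ≤ 2 → |s.im| ≤ 1 →
    |(∑' p : Nat.Primes, ((p : ℕ) : ℂ) ^ (-s)).re + Real.log ‖s - 1‖| ≤ C := by
  obtain ⟨C, hC⟩ := zeta_bound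
  refine ⟨|C| + ∑' p : Nat.Primes, ((p : ℕ) : ℝ) ^ (-(2 : ℝ)), ?_, fun s h1 h2 h3 => ?_⟩
  · have : 0 ≤ ∑' p : Nat.Primes, ((p : ℕ) : ℝ) ^ (-(2 : ℝ)) :=
      tsum_nonneg fun p => Real.rpow_nonneg (Nat.cast_nonneg _) _
    positivity
  · have h4 := hC s h1 h2 h3
    have h5 := log_zeta s h1
    have h6 := le_abs_self C
    rw [abs_le] at *
    constructor <;> linarith [h4.1, h4.2, h5.1, h5.2]

/-- real parts -/
theorem re_z (p : Nat.Primes) (σ h : ℝ) :
    (((p : ℕ) : ℂ) ^ (-(⟨σ, h⟩ : ℂ))).re =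
      ((p : ℕ) : ℝ) ^ (-σ) * Real.cos (h * Real.log (p : ℕ)) := by
  have hp : (0 : ℝ) < ((p : ℕ) : ℝ) := by exact_mod_cast p.2.pos
  have hp' : ((p : ℕ) : ℂ) ≠ 0 := by exact_mod_cast p.2.pos.ne'
  rw [Complex.cpow_def_of_ne_zero hp', Complex.exp_re, ← Complex.natCast_log,
    Real.rpow_def_of_pos hp]
  simp only [Complex.mul_re, Complex.mul_im, Complex.neg_re, Complex.neg_im, Complex.ofReal_re,
    Complex.ofReal_im, zero_mul, sub_zero, add_zero, mul_neg]
  rw [Real.cos_neg, mul_comm (Real.log _) h]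

theorem R_bound : ∃ C : ℝ, 0 ≤ C ∧ ∀ σ : ℝ, 1 < σ → σ ≤ 2 →
    |(∑' p : Nat.Primes, ((p : ℕ) : ℝ) ^ (-σ)) + Real.log (σ - 1)| ≤ C := by
  obtain ⟨C, hC0, hC⟩ := re_sum
  refine ⟨C, hC0, fun σ h1 h2 => ?_⟩
  have h3 := hC ⟨σ, 0⟩ h1 h2 (by simp)
  have hsz : Summable (fun p : Nat.Primes => ((p : ℕ) : ℂ) ^ (-(⟨σ, 0⟩ : ℂ))) := by
    refine Summable.of_norm ?_
    exact (summable_primes σ h1).congr (fun p => (norm_z p (⟨σ, 0⟩ : ℂ)).symm)
  rw [Complex.re_tsum hsz] at h3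
  have h4 : ∀ p : Nat.Primes, (((p : ℕ) : ℂ) ^ (-(⟨σ, 0⟩ : ℂ))).re = ((p : ℕ) : ℝ) ^ (-σ) := by
    intro p
    rw [re_z, zero_mul, Real.cos_zero, mul_one]
  rw [tsum_congr h4] at h3
  have h5 : ‖(⟨σ, 0⟩ : ℂ) - 1‖ = σ - 1 := by
    have : (⟨σ, 0⟩ : ℂ) - 1 = ((σ - 1 : ℝ) : ℂ) := by
      apply Complex.ext <;> simp
    rw [this, Complex.norm_real, Real.norm_eq_abs, abs_of_pos (by linarith)]
  rw [h5] at h3
  exact h3

theorem D_bound : ∃ C : ℝ, 0 ≤ C ∧ ∀ σ : ℝ, 1 < σ → σ ≤ 2 →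
    Summable (fun p : Nat.Primes => ((p : ℕ) : ℝ) ^ (-σ) * Real.log (p : ℕ)) ∧
    (∑' p : Nat.Primes, ((p : ℕ) : ℝ) ^ (-σ) * Real.log (p : ℕ)) ≤ C / (σ - 1) := by
  obtain ⟨C, hC0, hC⟩ := R_bound
  refine ⟨2 * (Real.log 2 + 2 * C), by have := Real.log_nonneg (by norm_num : (1:ℝ) ≤ 2); positivity,
    fun σ h1 h2 => ?_⟩
  set δ : ℝ := (σ - 1) / 2 with hδ
  have hδ0 : 0 < δ := by rw [hδ]; linarith
  set σ' : ℝ := 1 + δ with hσ'
  have hσσ : σ = σ' + δ := by rw [hσ', hδ]; ring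
  have hterm : ∀ p : Nat.Primes, ((p : ℕ) : ℝ) ^ (-σ) * Real.log (p : ℕ) ≤
      (((p : ℕ) : ℝ) ^ (-σ') - ((p : ℕ) : ℝ) ^ (-σ)) / δ := by
    intro p
    have hp : (0 : ℝ) < ((p : ℕ) : ℝ) := by exact_mod_cast p.2.pos
    rw [le_div_iff₀ hδ0]
    have e1 : ((p : ℕ) : ℝ) ^ (-σ') = ((p : ℕ) : ℝ) ^ (-σ) * ((p : ℕ) : ℝ) ^ δ := by
      rw [← Real.rpow_add hp]
      congr 1
      rw [hσσ]
      ring
    have e2 : 1 + δ * Real.log (p : ℕ) ≤ ((p : ℕ) : ℝ) ^ δ := by
      rw [Real.rpow_def_of_pos hp]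
      have := Real.add_one_le_exp (Real.log (p : ℕ) * δ)
      linarith
    have e3 : 0 ≤ ((p : ℕ) : ℝ) ^ (-σ) := Real.rpow_nonneg hp.le _
    rw [e1]
    nlinarith [mul_le_mul_of_nonneg_left e2 e3]
  have hnn : ∀ p : Nat.Primes, 0 ≤ ((p : ℕ) : ℝ) ^ (-σ) * Real.log (p : ℕ) := by
    intro p
    have hp : (1 : ℝ) ≤ ((p : ℕ) : ℝ) := by exact_mod_cast p.2.one_lt.le
    exact mul_nonneg (Real.rpow_nonneg (by linarith) _) (Real.log_nonneg hp)
  have hs1 := summable_primes σ h1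
  have hs2 := summable_primes σ' (by rw [hσ']; linarith)
  have hs3 := (hs2.sub hs1).div_const δ
  have hs4 : Summable (fun p : Nat.Primes => ((p : ℕ) : ℝ) ^ (-σ) * Real.log (p : ℕ)) :=
    Summable.of_nonneg_of_le hnn hterm hs3
  refine ⟨hs4, ?_⟩
  have h3 : (∑' p : Nat.Primes, ((p : ℕ) : ℝ) ^ (-σ) * Real.log (p : ℕ)) ≤
      ((∑' p : Nat.Primes, ((p : ℕ) : ℝ) ^ (-σ')) - ∑' p : Nat.Primes, ((p : ℕ) : ℝ) ^ (-σ)) / δ := by
    rw [← hs2.tsum_sub hs1, ← tsum_div_const]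
    exact hs4.tsum_le_tsum hterm hs3
  refine h3.trans ?_
  have h4 := abs_le.1 (hC σ h1 h2)
  have h5 := abs_le.1 (hC σ' (by rw [hσ']; linarith) (by rw [hσ', hδ]; linarith))
  have h6 : Real.log (σ - 1) = Real.log 2 + Real.log (σ' - 1) := by
    rw [← Real.log_mul (by norm_num) (by rw [hσ']; linarith)]
    congr 1
    rw [hσ', hδ]
    ring
  have h7 : (∑' p : Nat.Primes, ((p : ℕ) : ℝ) ^ (-σ')) - (∑' p : Nat.Primes, ((p : ℕ) : ℝ) ^ (-σ)) ≤
      Real.log 2 + 2 * C := by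
    linarith [h4.1, h4.2, h5.1, h5.2]
  rw [div_le_div_iff₀ hδ0 (by linarith)]
  have h8 : σ - 1 = 2 * δ := by rw [hδ]; ring
  rw [h8]
  nlinarith [mul_le_mul_of_nonneg_right h7 hδ0.le]

theorem fin_eq (N : ℕ) (F : ℕ → ℝ) :
    Summable (fun p : Nat.Primes => if (p : ℕ) ≤ N then F p else 0) ∧
    ∑ p ∈ (Finset.Icc 1 N).filter Nat.Prime, F p =
      ∑' p : Nat.Primes, (if (p : ℕ) ≤ N then F p else 0) := by
  refine ⟨?_, ?_⟩
  · refine summable_of_hasFiniteSupport (Set.Finite.subset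
      (Set.Finite.preimage (f := fun p : Nat.Primes => (p : ℕ)) (s := Set.Iic N)
        Subtype.val_injective.injOn (Set.finite_Iic N)) ?_)
    intro p hp
    by_contra h
    apply hp
    simp only [Set.mem_preimage, Set.mem_Iic, not_le] at h
    simp [not_le.2 h]
  · have h1 := tsum_subtype {n : ℕ | n.Prime} (fun n => if n ≤ N then F n else 0)
    have h2 : ∑' p : Nat.Primes, (if (p : ℕ) ≤ N then F p else 0) =
        ∑' n : ℕ, Set.indicator {n : ℕ | n.Prime} (fun n => if n ≤ N then F n else 0) n := h1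
    rw [h2, tsum_eq_sum (s := (Finset.Icc 1 N).filter Nat.Prime)]
    · refine Finset.sum_congr rfl fun n hn => ?_
      rw [Finset.mem_filter, Finset.mem_Icc] at hn
      rw [Set.indicator_of_mem (show n ∈ {n : ℕ | n.Prime} from hn.2), if_pos hn.1.2]
    · intro n hn
      rw [Finset.mem_filter, Finset.mem_Icc] at hn
      by_cases hp : n.Prime
      · rw [Set.indicator_of_mem (show n ∈ {n : ℕ | n.Prime} from hp), if_neg]
        intro h
        exact hn ⟨⟨hp.one_lt.le, h⟩, hp⟩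
      · exact Set.indicator_of_notMem (show n ∉ {n : ℕ | n.Prime} from hp) _

/-- **Package PR.** -/
theorem t_PR : Pool.Agent.U398.MV.S_PR := by
  obtain ⟨C0, hC00, hC0⟩ := re_sum
  obtain ⟨C1, hC10, hC1⟩ := D_bound
  refine ⟨C0 + 2 * C1 + 1, by positivity, ?_⟩
  intro x hx h h0 h1
  have hx0 : 0 < x := by linarith
  set ℓ := Real.log x with hℓdef
  have hℓ : 1 ≤ ℓ := by
    rw [hℓdef, Real.le_log_iff_exp_le hx0]
    linarith [Real.exp_one_lt_d9]
  have hℓ0 : 0 < ℓ := by linarith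
  set σ : ℝ := 1 + 1 / ℓ with hσ
  have hi0 : 0 < 1 / ℓ := by positivity
  have hi1 : 1 / ℓ ≤ 1 := by
    rw [div_le_one hℓ0]
    exact hℓ
  set s : ℂ := ⟨σ, h⟩ with hs
  have hσ1 : 1 < σ := by rw [hσ]; linarith
  have hσ2 : σ ≤ 2 := by rw [hσ]; linarith
  have hA := hC0 s hσ1 hσ2 (by rw [hs]; simp only; rw [abs_of_nonneg h0]; exact h1)
  obtain ⟨hDs, hD⟩ := hC1 σ hσ1 hσ2
  have hD' : (∑' p : Nat.Primes, ((p : ℕ) : ℝ) ^ (-σ) * Real.log (p : ℕ)) ≤ C1 * ℓ := by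
    refine hD.trans (le_of_eq ?_)
    rw [hσ]
    field_simp
    ring
  set N : ℕ := ⌊x⌋₊ with hN
  set F : ℕ → ℝ := fun n => Real.cos (h * Real.log n) / n with hF
  obtain ⟨hfs, hfe⟩ := fin_eq N F
  have hsz : Summable (fun p : Nat.Primes => ((p : ℕ) : ℂ) ^ (-s)) := by
    refine Summable.of_norm ?_
    exact (summable_primes σ hσ1).congr (fun p => (norm_z p s).symm)
  have hszre : Summable (fun p : Nat.Primes => (((p : ℕ) : ℂ) ^ (-s)).re) :=
    (Complex.hasSum_re hsz.hasSum).summable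
  have hdiff : |(∑ p ∈ (Finset.Icc 1 N).filter Nat.Prime, F p) -
      (∑' p : Nat.Primes, ((p : ℕ) : ℂ) ^ (-s)).re| ≤ 2 * C1 := by
    rw [hfe, Complex.re_tsum hsz, ← hfs.tsum_sub hszre]
    have hb : ∀ p : Nat.Primes, ‖(if (p : ℕ) ≤ N then F p else 0) - (((p : ℕ) : ℂ) ^ (-s)).re‖ ≤
        2 / ℓ * (((p : ℕ) : ℝ) ^ (-σ) * Real.log (p : ℕ)) := by
      intro p
      have hp : (0 : ℝ) < ((p : ℕ) : ℝ) := by exact_mod_cast p.2.pos
      have hp1 : (1 : ℝ) ≤ ((p : ℕ) : ℝ) := by exact_mod_cast p.2.one_lt.le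
      have hlp : 0 ≤ Real.log (p : ℕ) := Real.log_nonneg hp1
      have hps : 0 ≤ ((p : ℕ) : ℝ) ^ (-σ) := Real.rpow_nonneg hp.le _
      have hcos := Real.abs_cos_le_one (h * Real.log (p : ℕ))
      rw [hs, re_z, Real.norm_eq_abs]
      by_cases hpN : (p : ℕ) ≤ N
      · rw [if_pos hpN, hF]
        simp only
        have hpx : ((p : ℕ) : ℝ) ≤ x := by
          have h2 : ((p : ℕ) : ℝ) ≤ (N : ℝ) := by exact_mod_cast hpN
          exact h2.trans (Nat.floor_le hx0.le)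
        set u : ℝ := Real.log (p : ℕ) / ℓ with hu
        have hu0 : 0 ≤ u := div_nonneg hlp hℓ0.le
        have hu1 : u ≤ 1 := by
          rw [hu, div_le_one hℓ0]
          exact Real.log_le_log hp hpx
        have e1 : 1 / ((p : ℕ) : ℝ) = ((p : ℕ) : ℝ) ^ (-σ) * Real.exp u := by
          rw [Real.rpow_def_of_pos hp, ← Real.exp_add, one_div, ← Real.exp_log (inv_pos.2 hp),
            Real.log_inv]
          congr 1
          rw [hσ, hu]
          field_simp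
          ring
        have e2 : Real.exp u - 1 ≤ 2 * u := by
          have h3 := Real.abs_exp_sub_one_le (x := u) (by rw [abs_of_nonneg hu0]; exact hu1)
          rw [abs_of_nonneg hu0] at h3
          exact (le_abs_self _).trans h3
        have e3 : 0 ≤ Real.exp u - 1 := by linarith [Real.add_one_le_exp u]
        have e4 : Real.cos (h * Real.log (p : ℕ)) / ((p : ℕ) : ℝ) -
            ((p : ℕ) : ℝ) ^ (-σ) * Real.cos (h * Real.log (p : ℕ)) =
            Real.cos (h * Real.log (p : ℕ)) * (((p : ℕ) : ℝ) ^ (-σ) * (Real.exp u - 1)) := by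
          have : Real.cos (h * Real.log (p : ℕ)) / ((p : ℕ) : ℝ) =
              Real.cos (h * Real.log (p : ℕ)) * (1 / ((p : ℕ) : ℝ)) := by ring
          rw [this, e1]
          ring
        rw [e4, abs_mul, abs_of_nonneg (mul_nonneg hps e3)]
        calc |Real.cos (h * Real.log (p : ℕ))| * (((p : ℕ) : ℝ) ^ (-σ) * (Real.exp u - 1))
            ≤ 1 * (((p : ℕ) : ℝ) ^ (-σ) * (2 * u)) := by
              refine mul_le_mul hcos (mul_le_mul_of_nonneg_left e2 hps)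
                (mul_nonneg hps e3) (by norm_num)
          _ = 2 / ℓ * (((p : ℕ) : ℝ) ^ (-σ) * Real.log (p : ℕ)) := by
              rw [hu]
              ring
      · rw [if_neg hpN, zero_sub, abs_neg, abs_mul, abs_of_nonneg hps]
        have hpx : x < ((p : ℕ) : ℝ) := by
          rw [not_le, hN] at hpN
          exact Nat.lt_of_floor_lt hpN
        have h2 : ℓ ≤ Real.log (p : ℕ) := Real.log_le_log hx0 hpx.le
        have h3 : 1 ≤ Real.log (p : ℕ) / ℓ := by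
          rw [le_div_iff₀ hℓ0]
          linarith
        calc ((p : ℕ) : ℝ) ^ (-σ) * |Real.cos (h * Real.log (p : ℕ))|
            ≤ ((p : ℕ) : ℝ) ^ (-σ) * 1 := mul_le_mul_of_nonneg_left hcos hps
          _ ≤ ((p : ℕ) : ℝ) ^ (-σ) * (2 * (Real.log (p : ℕ) / ℓ)) :=
              mul_le_mul_of_nonneg_left (by linarith) hps
          _ = 2 / ℓ * (((p : ℕ) : ℝ) ^ (-σ) * Real.log (p : ℕ)) := by ring
    have h4 := tsum_of_norm_bounded (hDs.mul_left (2 / ℓ)).hasSum hb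
    rw [Real.norm_eq_abs, tsum_mul_left] at h4
    refine h4.trans ?_
    calc 2 / ℓ * ∑' p : Nat.Primes, ((p : ℕ) : ℝ) ^ (-σ) * Real.log (p : ℕ)
        ≤ 2 / ℓ * (C1 * ℓ) := mul_le_mul_of_nonneg_left hD' (by positivity)
      _ = 2 * C1 := by field_simp
  have hM : |Real.log (max (1 / ℓ) h) - Real.log ‖s - 1‖| ≤ 1 := by
    set M : ℝ := max (1 / ℓ) h with hMdef
    have hM0 : 0 < M := lt_max_of_lt_left hi0
    have hre : (s - 1).re = 1 / ℓ := by
      rw [Complex.sub_re, Complex.one_re, hs]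
      simp only
      rw [hσ]
      ring
    have him : (s - 1).im = h := by
      rw [Complex.sub_im, Complex.one_im, hs]
      simp
    have h5 : M ≤ ‖s - 1‖ := by
      refine max_le ?_ ?_
      · have := Complex.abs_re_le_norm (s - 1)
        rw [hre, abs_of_pos hi0] at this
        exact this
      · have := Complex.abs_im_le_norm (s - 1)
        rw [him, abs_of_nonneg h0] at this
        exact this
    have h6 : ‖s - 1‖ ≤ 2 * M := by
      have := Complex.norm_le_abs_re_add_abs_im (s - 1)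
      rw [hre, him, abs_of_pos hi0, abs_of_nonneg h0] at this
      have e1 : 1 / ℓ ≤ M := le_max_left _ _
      have e2 : h ≤ M := le_max_right _ _
      linarith
    have h7 := Real.log_le_log hM0 h5
    have h8 := Real.log_le_log (hM0.trans_le h5) h6
    rw [Real.log_mul (by norm_num) hM0.ne'] at h8
    have h9 : Real.log 2 ≤ 1 := by linarith [Real.log_two_lt_d9]
    rw [abs_le]
    constructor <;> linarith
  have hfin : |(∑ p ∈ (Finset.Icc 1 N).filter Nat.Prime, F p) + Real.log (max (1 / ℓ) h)| ≤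
      C0 + 2 * C1 + 1 := by
    rw [abs_le] at *
    constructor <;> linarith [hA.1, hA.2, hdiff.1, hdiff.2, hM.1, hM.2]
  exact hfin

end Pool.Agent.U780.MV.PR
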