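import Mathlib
import Pool.Agent.U398.MV.Stm

/-!
# Gaussian pair sums are bounded by triangle pair sums (package PB of project MV)
-/

set_option autoImplicit false

namespace Pool.Agent.U780.MV.PB

open Finset

/-- the comparison kernel -/
noncomputable def f (m : ℤ) : ℝ := 1 / (1 + (m : ℝ) ^ 2)

theorem f_nonneg (m : ℤ) : 0 ≤ f m := by
  unfold f
  positivity

theorem f_summable : Summable f := by
  have h1 : Summable (fun n : ℤ => 1 / (n : ℝ) ^ 2) :=
    (Real.summable_one_div_int_pow (p := 2)).2 (by norm_num)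
  have h2 : Summable (fun n : ℤ => if n = 0 then (1 : ℝ) else 0) :=
    (hasSum_ite_eq (0 : ℤ) (1 : ℝ)).summable
  refine Summable.of_nonneg_of_le f_nonneg (fun m => ?_) (h1.add h2)
  unfold f
  by_cases hm : m = 0
  · subst hm
    simp
  · have hm' : (m : ℝ) ≠ 0 := by exact_mod_cast hm
    have h3 : 0 < (m : ℝ) ^ 2 := by positivity
    simp only [hm, if_false, add_zero]
    exact one_div_le_one_div_of_le h3 (by linarith)

theorem fib {ι : Type} (S : Finset ι) (w : ι → ℝ) (k : ι → ℤ) (F : ℤ → ℤ → ℝ) :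
    ∑ i ∈ S, ∑ j ∈ S, w i * w j * F (k i) (k j) =
      ∑ a ∈ S.image k, ∑ b ∈ S.image k,
        (∑ i ∈ S with k i = a, w i) * (∑ j ∈ S with k j = b, w j) * F a b := by
  rw [← Finset.sum_fiberwise_of_maps_to (t := S.image k) (g := k)
    (fun i hi => mem_image_of_mem k hi)]
  refine Finset.sum_congr rfl fun a _ => ?_
  have h1 : ∀ i ∈ S.filter (fun i => k i = a),
      ∑ j ∈ S, w i * w j * F (k i) (k j) =
        ∑ b ∈ S.image k, ∑ j ∈ S with k j = b, w i * w j * F a b := by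
    intro i hi
    rw [← Finset.sum_fiberwise_of_maps_to (t := S.image k) (g := k)
      (fun i hi => mem_image_of_mem k hi)]
    refine Finset.sum_congr rfl fun b _ => Finset.sum_congr rfl fun j hj => ?_
    rw [(mem_filter.1 hi).2, (mem_filter.1 hj).2]
  rw [Finset.sum_congr rfl h1, Finset.sum_comm]
  refine Finset.sum_congr rfl fun b _ => ?_
  rw [Finset.sum_mul_sum, Finset.sum_mul]
  refine Finset.sum_congr rfl fun i _ => ?_
  rw [Finset.sum_mul]

theorem row (K : Finset ℤ) (a : ℤ) : ∑ b ∈ K, f (a - b) ≤ ∑' m, f m := by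
  have h : ∑ b ∈ K, f (a - b) = ∑ m ∈ K.image (fun b => a - b), f m := by
    rw [Finset.sum_image]
    intro x _ y _ hxy
    simp only at hxy
    omega
  rw [h]
  exact f_summable.sum_le_tsum _ (fun m _ => f_nonneg m)

theorem key {ι : Type} (S : Finset ι) (w : ι → ℝ) (k : ι → ℤ) :
    ∑ i ∈ S, ∑ j ∈ S, w i * w j * f (k i - k j) ≤
      (∑' m, f m) * ∑ i ∈ S, ∑ j ∈ S, w i * w j * (if k i = k j then 1 else 0) := by
  rw [fib S w k (fun a b => f (a - b)), fib S w k (fun a b => if a = b then 1 else 0)]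
  set W : ℤ → ℝ := fun a => ∑ i ∈ S with k i = a, w i with hW
  set K := S.image k
  have h2 : ∑ a ∈ K, ∑ b ∈ K, W a * W b * (if a = b then 1 else 0) = ∑ a ∈ K, W a ^ 2 := by
    refine Finset.sum_congr rfl fun a ha => ?_
    simp only [mul_ite, mul_one, mul_zero, Finset.sum_ite_eq, ha, if_true]
    ring
  change ∑ a ∈ K, ∑ b ∈ K, W a * W b * f (a - b) ≤
    (∑' m, f m) * ∑ a ∈ K, ∑ b ∈ K, W a * W b * (if a = b then 1 else 0)
  rw [h2]
  have hsym : ∀ a b : ℤ, f (a - b) = f (b - a) := by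
    intro a b
    unfold f
    push_cast
    congr 2
    ring
  have h3 : ∑ a ∈ K, ∑ b ∈ K, W a * W b * f (a - b) ≤
      ∑ a ∈ K, ∑ b ∈ K, (W a ^ 2 / 2 * f (a - b) + W b ^ 2 / 2 * f (a - b)) := by
    refine Finset.sum_le_sum fun a _ => Finset.sum_le_sum fun b _ => ?_
    have := f_nonneg (a - b)
    nlinarith [mul_nonneg this (sq_nonneg (W a - W b))]
  refine h3.trans ?_
  have h4 : ∑ a ∈ K, ∑ b ∈ K, (W a ^ 2 / 2 * f (a - b) + W b ^ 2 / 2 * f (a - b)) =
      ∑ a ∈ K, W a ^ 2 * ∑ b ∈ K, f (a - b) := by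
    simp only [Finset.sum_add_distrib]
    rw [Finset.sum_comm (f := fun a b => W b ^ 2 / 2 * f (a - b)), ← Finset.sum_add_distrib]
    refine Finset.sum_congr rfl fun a _ => ?_
    rw [Finset.mul_sum, ← Finset.sum_add_distrib]
    refine Finset.sum_congr rfl fun b _ => ?_
    rw [hsym b a]
    ring
  rw [h4, Finset.mul_sum]
  refine Finset.sum_le_sum fun a _ => ?_
  rw [mul_comm (∑' m, f m)]
  exact mul_le_mul_of_nonneg_left (row K a) (sq_nonneg _)

/-- the pointwise comparison -/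
theorem gauss_le (z : ℝ) (n : ℤ) (hn : |(n : ℝ)| ≤ |z| + 1) :
    Real.exp (-(Real.pi * z) ^ 2 / 16) ≤ 4 * f n := by
  have hpi := Real.pi_gt_three
  set s : ℝ := (Real.pi * z) ^ 2 / 16 with hs
  have hs0 : 0 ≤ s := by positivity
  have h1 : Real.exp (-(Real.pi * z) ^ 2 / 16) ≤ 1 / (1 + s) := by
    have h2 : -(Real.pi * z) ^ 2 / 16 = -s := by rw [hs]; ring
    rw [h2, Real.exp_neg, ← one_div]
    exact one_div_le_one_div_of_le (by linarith) (by linarith [Real.add_one_le_exp s])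
  refine h1.trans ?_
  unfold f
  rw [mul_one_div, div_le_div_iff₀ (by linarith) (by positivity)]
  have h3 : (n : ℝ) ^ 2 ≤ (|z| + 1) ^ 2 := by
    rw [← sq_abs (n : ℝ)]
    exact pow_le_pow_left₀ (abs_nonneg _) hn 2
  have h4 : |z| ^ 2 = z ^ 2 := sq_abs z
  have h5 : (9 : ℝ) / 16 * z ^ 2 ≤ s := by
    rw [hs]
    nlinarith [sq_nonneg z, mul_nonneg (sq_nonneg z) (by nlinarith : (0:ℝ) ≤ Real.pi ^ 2 - 9)]
  nlinarith [sq_nonneg (|z| - 1), abs_nonneg z]

/-- **Package PB.** -/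
theorem t_PB : Pool.Agent.U398.MV.S_PB := by
  refine ⟨8 * ∑' m, f m, ?_, ?_⟩
  · have h : f 0 ≤ ∑' m, f m := f_summable.le_tsum 0 (fun m _ => f_nonneg m)
    have h0 : f 0 = 1 := by unfold f; norm_num
    linarith
  intro ι S w x L hL hw
  have hpi := Real.pi_pos
  set y : ι → ℝ := fun i => x i * L / Real.pi with hy
  set k : ι → ℤ := fun i => ⌊y i⌋ with hk
  have hyd : ∀ i j, L * (x i - x j) = Real.pi * (y i - y j) := by
    intro i j
    rw [hy]
    field_simp
  have h1 : ∑ i ∈ S, ∑ j ∈ S, w i * w j * Real.exp (-(L * (x i - x j)) ^ 2 / 16) ≤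
      ∑ i ∈ S, ∑ j ∈ S, 4 * (w i * w j * f (k i - k j)) := by
    refine Finset.sum_le_sum fun i hi => Finset.sum_le_sum fun j hj => ?_
    have h2 : Real.exp (-(L * (x i - x j)) ^ 2 / 16) ≤ 4 * f (k i - k j) := by
      rw [hyd i j]
      apply gauss_le
      have e1 := Int.floor_le (y i)
      have e2 := Int.lt_floor_add_one (y i)
      have e3 := Int.floor_le (y j)
      have e4 := Int.lt_floor_add_one (y j)
      push_cast
      rw [abs_le]
      have e5 := le_abs_self (y i - y j)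
      have e6 := neg_abs_le (y i - y j)
      constructor <;> simp only [hk] <;> linarith
    have h3 : 0 ≤ w i * w j := mul_nonneg (hw i hi) (hw j hj)
    calc w i * w j * Real.exp (-(L * (x i - x j)) ^ 2 / 16)
        ≤ w i * w j * (4 * f (k i - k j)) := mul_le_mul_of_nonneg_left h2 h3
      _ = 4 * (w i * w j * f (k i - k j)) := by ring
  have h4 : ∑ i ∈ S, ∑ j ∈ S, 4 * (w i * w j * f (k i - k j)) =
      4 * ∑ i ∈ S, ∑ j ∈ S, w i * w j * f (k i - k j) := by
    rw [Finset.mul_sum]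
    refine Finset.sum_congr rfl fun i _ => ?_
    rw [Finset.mul_sum]
  have h5 : ∑ i ∈ S, ∑ j ∈ S, w i * w j * (if k i = k j then (1 : ℝ) else 0) ≤
      2 * ∑ i ∈ S, ∑ j ∈ S, w i * w j * max 0 (1 - |(x i - x j) * L / (2 * Real.pi)|) := by
    rw [Finset.mul_sum]
    refine Finset.sum_le_sum fun i hi => ?_
    rw [Finset.mul_sum]
    refine Finset.sum_le_sum fun j hj => ?_
    have h3 : 0 ≤ w i * w j := mul_nonneg (hw i hi) (hw j hj)
    by_cases hij : k i = k j
    · rw [if_pos hij]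
      have h6 : |(x i - x j) * L / (2 * Real.pi)| ≤ 1 / 2 := by
        have e0 : (x i - x j) * L / (2 * Real.pi) = (y i - y j) / 2 := by
          rw [hy]
          field_simp
        rw [e0]
        have e1 := Int.floor_le (y i)
        have e2 := Int.lt_floor_add_one (y i)
        have e3 := Int.floor_le (y j)
        have e4 := Int.lt_floor_add_one (y j)
        have e7 : ((⌊y i⌋ : ℤ) : ℝ) = ((⌊y j⌋ : ℤ) : ℝ) := by exact_mod_cast hij
        rw [abs_le]
        constructor <;> linarith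
      have h7 : (1 : ℝ) / 2 ≤ max 0 (1 - |(x i - x j) * L / (2 * Real.pi)|) :=
        le_max_of_le_right (by linarith)
      nlinarith
    · rw [if_neg hij, mul_zero]
      exact mul_nonneg (by norm_num) (mul_nonneg h3 (le_max_left _ _))
  have h8 := key S w k
  have hB : 0 ≤ ∑' m, f m := tsum_nonneg f_nonneg
  calc ∑ i ∈ S, ∑ j ∈ S, w i * w j * Real.exp (-(L * (x i - x j)) ^ 2 / 16)
      ≤ 4 * ∑ i ∈ S, ∑ j ∈ S, w i * w j * f (k i - k j) := by rw [← h4]; exact h1
    _ ≤ 4 * ((∑' m, f m) * ∑ i ∈ S, ∑ j ∈ S, w i * w j * (if k i = k j then 1 else 0)) := by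
        linarith
    _ ≤ 4 * ((∑' m, f m) * (2 * ∑ i ∈ S, ∑ j ∈ S,
          w i * w j * max 0 (1 - |(x i - x j) * L / (2 * Real.pi)|))) := by
        have := mul_le_mul_of_nonneg_left h5 hB
        linarith
    _ = 8 * (∑' m, f m) * ∑ i ∈ S, ∑ j ∈ S,
          w i * w j * max 0 (1 - |(x i - x j) * L / (2 * Real.pi)|) := by ring

end Pool.Agent.U780.MV.PB
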